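import Pool.Agent.H468.QF.Stm

/-! AR2: 2-adic arithmetic (helper348 for helper468). -/

set_option autoImplicit false

open scoped Classical

namespace Pool.Agent.H348.QF

open Pool.Agent.H743.X17 (ind e4 up)

/-- a common denominator, reduced at `2` -/
theorem reduce (a b : ℚ) : ∃ (k : ℕ) (A B C : ℤ), C % 2 = 1 ∧ a = A / (2 ^ k * C) ∧
    b = B / (2 ^ k * C) ∧ (k = 0 ∨ A % 2 = 1 ∨ B % 2 = 1) := by
  have step : ∀ (k : ℕ) (A B C : ℤ), C % 2 = 1 → a = A / (2 ^ k * C) → b = B / (2 ^ k * C) →
      ∃ (k : ℕ) (A B C : ℤ), C % 2 = 1 ∧ a = A / (2 ^ k * C) ∧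
        b = B / (2 ^ k * C) ∧ (k = 0 ∨ A % 2 = 1 ∨ B % 2 = 1) := by
    intro k
    induction k with
    | zero => exact fun A B C h1 h2 h3 => ⟨0, A, B, C, h1, h2, h3, Or.inl rfl⟩
    | succ k ih =>
      intro A B C h1 h2 h3
      by_cases hA : A % 2 = 1
      · exact ⟨k + 1, A, B, C, h1, h2, h3, Or.inr (Or.inl hA)⟩
      by_cases hB : B % 2 = 1
      · exact ⟨k + 1, A, B, C, h1, h2, h3, Or.inr (Or.inr hB)⟩
      obtain ⟨A', rfl⟩ : ∃ A', A = 2 * A' := ⟨A / 2, by omega⟩
      obtain ⟨B', rfl⟩ : ∃ B', B = 2 * B' := ⟨B / 2, by omega⟩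
      have hC : (C : ℚ) ≠ 0 := by
        intro h
        have : C = 0 := by exact_mod_cast h
        omega
      refine ih A' B' C h1 ?_ ?_
      · rw [h2, pow_succ]; push_cast; field_simp
      · rw [h3, pow_succ]; push_cast; field_simp
  have hN : (a.den * b.den : ℕ) ≠ 0 := mul_ne_zero a.den_nz b.den_nz
  obtain ⟨k, C, hC, hNC⟩ := Nat.exists_eq_pow_mul_and_not_dvd hN 2 (by norm_num)
  have hCz : ((C : ℤ) : ℤ) % 2 = 1 := by omega
  have hNq : (2 : ℚ) ^ k * ((C : ℤ) : ℚ) = a.den * b.den := by
    have : ((2 ^ k * C : ℕ) : ℚ) = ((a.den * b.den : ℕ) : ℚ) := by rw [hNC]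
    push_cast at this ⊢
    exact this
  have had : (a.den : ℚ) ≠ 0 := by exact_mod_cast a.den_nz
  have hbd : (b.den : ℚ) ≠ 0 := by exact_mod_cast b.den_nz
  refine step k (a.num * b.den) (b.num * a.den) C hCz ?_ ?_
  · rw [hNq]
    push_cast
    rw [mul_div_mul_right _ _ hbd]
    exact (Rat.num_div_den a).symm
  · rw [hNq]
    push_cast
    rw [mul_comm (a.den : ℚ) (b.den : ℚ), mul_div_mul_right _ _ had]
    exact (Rat.num_div_den b).symm

theorem dvd_of_norm (z c : ℤ) (n : ℕ) (hc : c % 2 = 1) (h : padicNorm 2 (z / (2 ^ n * c)) ≤ 1) :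
    (2 : ℤ) ^ n ∣ z := by
  have hc1 : padicNorm 2 (c : ℚ) = 1 := by
    rw [padicNorm.int_eq_one_iff]
    intro h
    omega
  rw [padicNorm.div, padicNorm.mul, hc1, mul_one] at h
  have h2 : padicNorm 2 ((2 : ℚ) ^ n) = (2 : ℚ) ^ (-n : ℤ) := by
    have h3 : padicNorm 2 (2 : ℚ) = (2 : ℚ)⁻¹ := by
      have := padicNorm.padicNorm_p (p := 2) (by norm_num)
      exact_mod_cast this
    have h4 : ∀ j : ℕ, padicNorm 2 ((2 : ℚ) ^ j) = ((2 : ℚ)⁻¹) ^ j := by
      intro j
      induction j with
      | zero => simp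
      | succ j ih => rw [pow_succ, padicNorm.mul, ih, h3, pow_succ]
    rw [h4, zpow_neg, zpow_natCast, inv_pow]
  rw [h2, div_le_one (by positivity)] at h
  have h3 := (padicNorm.dvd_iff_norm_le (p := 2) (n := n) (z := z)).2 (by exact_mod_cast h)
  exact_mod_cast h3

theorem sq4 (A : ℤ) (h : A % 2 = 1) : A ^ 2 % 8 = 1 := by
  obtain ⟨x, rfl⟩ : ∃ x, A = 2 * x + 1 := ⟨A / 2, by omega⟩
  have : (2 * x + 1) ^ 2 = 4 * (x * (x + 1)) + 1 := by ring
  rw [this]
  have h2 : (x * (x + 1)) % 2 = 0 := Int.even_iff.1 (Int.even_mul_succ_self x)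
  omega

theorem t_AR2 : Pool.Agent.H468.QF.S_AR2 := by
  intro m v hm hv hm4 a b h1 h2
  obtain ⟨k, A, B, C, hC, ha, hb, hred⟩ := reduce a b
  have hC0 : (C : ℚ) ≠ 0 := by
    intro h
    have : C = 0 := by exact_mod_cast h
    omega
  have hC8 := sq4 C hC
  have d1 : (2 : ℤ) ^ (2 * k + 2) ∣ v * (A ^ 2 + m * B ^ 2) - 4 ^ k * C ^ 2 := by
    refine dvd_of_norm _ (C ^ 2) _ (by omega) ?_
    have e : ((v * (A ^ 2 + m * B ^ 2) - 4 ^ k * C ^ 2 : ℤ) : ℚ) /
        (2 ^ (2 * k + 2) * ((C ^ 2 : ℤ) : ℚ)) = (v * (a ^ 2 + m * b ^ 2) - 1) / 4 := by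
      have h4 : (4 : ℚ) ^ k = (2 ^ k) ^ 2 := by
        rw [← pow_mul, mul_comm k 2, pow_mul]; norm_num
      have h5 : (2 : ℚ) ^ (2 * k + 2) = (2 ^ k) ^ 2 * 4 := by
        rw [pow_add, mul_comm 2 k, pow_mul]; norm_num
      have h6 : (2 : ℚ) ^ k ≠ 0 := by positivity
      rw [ha, hb, h5]
      push_cast
      rw [h4]
      field_simp
    rw [e]; exact h1
  have d2 : (2 : ℤ) ^ (2 * k + 1) ∣ v * A * B := by
    refine dvd_of_norm _ (C ^ 2) _ (by omega) ?_
    have e : ((v * A * B : ℤ) : ℚ) / (2 ^ (2 * k + 1) * ((C ^ 2 : ℤ) : ℚ)) = v * a * b / 2 := by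
      have h5 : (2 : ℚ) ^ (2 * k + 1) = (2 ^ k) ^ 2 * 2 := by
        rw [pow_add, mul_comm 2 k, pow_mul]; norm_num
      have h6 : (2 : ℚ) ^ k ≠ 0 := by positivity
      rw [ha, hb, h5]
      push_cast
      field_simp
    rw [e]; exact h2
  have hv4 : ¬ (4 : ℤ) ∣ v := by
    intro h
    have := hv 2 (by simpa using h)
    rw [Int.isUnit_iff] at this
    omega
  have hm4' : ¬ (4 : ℤ) ∣ m := by
    intro h
    have := hm 2 (by simpa using h)
    rw [Int.isUnit_iff] at this
    omega
  have hpow : (2 : ℤ) ^ (2 * k + 2) = 4 * 4 ^ k := by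
    rw [pow_add, pow_mul]; norm_num; ring
  have hpow2 : (2 : ℤ) ^ (2 * k + 1) = 2 * 4 ^ k := by
    rw [pow_add, pow_mul]; norm_num; ring
  rw [hpow] at d1
  rw [hpow2] at d2
  have hCodd : C ^ 2 % 2 = 1 := by omega
  have h4k : ∀ j : ℕ, 1 ≤ j → (4 : ℤ) ∣ 4 ^ j := fun j hj => dvd_pow_self 4 (by omega)
  -- `4` divides the left-hand side if `k ≥ 1`
  have d3 : 1 ≤ k → (4 : ℤ) ∣ v * (A ^ 2 + m * B ^ 2) := by
    intro hk
    have h3 : (4 : ℤ) ∣ v * (A ^ 2 + m * B ^ 2) - 4 ^ k * C ^ 2 := (dvd_mul_right 4 _).trans d1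
    have h4 : (4 : ℤ) ∣ 4 ^ k * C ^ 2 := (h4k k hk).mul_right _
    exact (dvd_sub_left h4).1 h3
  refine ⟨?_, ?_⟩
  · intro hm3 hv2
    obtain ⟨v', rfl⟩ := hv2
    have hv'o : v' % 2 = 1 := by
      by_contra h
      exact hv4 ⟨v' / 2, by omega⟩
    rcases Nat.eq_zero_or_pos k with hk | hk
    · subst hk
      rw [pow_zero, mul_one, one_mul] at d1
      have e : 2 * v' * (A ^ 2 + m * B ^ 2) - C ^ 2 = 2 * (v' * (A ^ 2 + m * B ^ 2)) - C ^ 2 := by
        ring
      rw [e] at d1
      omega
    · have h3 := d3 hk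
      have h5 : Even (v' * (A ^ 2 + m * B ^ 2)) := by
        have e : 2 * v' * (A ^ 2 + m * B ^ 2) = 2 * (v' * (A ^ 2 + m * B ^ 2)) := by ring
        rw [e] at h3
        rw [Int.even_iff]
        omega
      have h6 : Even (v' * (A * B)) := by
        have h7 : (2 : ℤ) * 4 ∣ 2 * v' * A * B := (mul_dvd_mul_left 2 (h4k k hk)).trans d2
        have e : 2 * v' * A * B = 2 * (v' * (A * B)) := by ring
        rw [e] at h7
        rw [Int.even_iff]
        omega
      have hv'ne : ¬ Even v' := by rw [Int.even_iff]; omega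
      have hmne : ¬ Even m := by rw [Int.even_iff]; omega
      have hAB : ¬ (Even A ∧ Even B) := by
        rw [Int.even_iff, Int.even_iff]
        rcases hred with h | h | h <;> omega
      rw [Int.even_mul, Int.even_add, Int.even_mul, Int.even_pow' two_ne_zero,
        Int.even_pow' two_ne_zero] at h5
      rw [Int.even_mul, Int.even_mul] at h6
      tauto
  · intro hm2
    obtain ⟨m', rfl⟩ : ∃ m', m = 2 * m' := ⟨m / 2, by omega⟩
    have hm'o : m' % 2 = 1 := by
      by_contra h
      exact hm4' ⟨m' / 2, by omega⟩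
    have hm'ne : ¬ Even m' := by rw [Int.even_iff]; omega
    by_cases hv2 : (2 : ℤ) ∣ v
    · obtain ⟨v', rfl⟩ := hv2
      have hv'o : v' % 2 = 1 := by
        by_contra h
        exact hv4 ⟨v' / 2, by omega⟩
      have hv'ne : ¬ Even v' := by rw [Int.even_iff]; omega
      have key : v' % 4 = m' % 4 := by
        rcases Nat.eq_zero_or_pos k with hk | hk
        · exfalso
          subst hk
          rw [pow_zero, mul_one, one_mul] at d1
          have e : 2 * v' * (A ^ 2 + 2 * m' * B ^ 2) - C ^ 2 =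
              2 * (v' * (A ^ 2 + 2 * m' * B ^ 2)) - C ^ 2 := by ring
          rw [e] at d1
          omega
        · obtain ⟨j, rfl⟩ : ∃ j, k = j + 1 := ⟨k - 1, by omega⟩
          -- A is even
          have h8 : (16 : ℤ) ∣ 2 * v' * (A ^ 2 + 2 * m' * B ^ 2) - 4 ^ (j + 1) * C ^ 2 := by
            refine Dvd.dvd.trans ?_ d1
            rw [pow_succ]
            exact ⟨4 ^ j, by ring⟩
          have h9 : (8 : ℤ) ∣ v' * (A ^ 2 + 2 * m' * B ^ 2) - 2 * 4 ^ j * C ^ 2 := by
            obtain ⟨t, ht⟩ := h8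
            refine ⟨t, ?_⟩
            have e4 : (4 : ℤ) ^ (j + 1) = 4 ^ j * 4 := pow_succ _ _
            rw [e4] at ht
            linarith
          have hAe : Even A := by
            have h10 : Even (v' * (A ^ 2 + 2 * m' * B ^ 2)) := by
              obtain ⟨t, ht⟩ := h9
              refine ⟨4 * t + 4 ^ j * C ^ 2, ?_⟩
              linarith
            rw [Int.even_mul, Int.even_add, Int.even_pow' two_ne_zero] at h10
            have h11 : Even (2 * m' * B ^ 2) := ⟨m' * B ^ 2, by ring⟩
            tauto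
          have hBo : B % 2 = 1 := by
            have := Int.even_iff.1 hAe
            rcases hred with h | h | h <;> omega
          have hB8 := sq4 B hBo
          obtain ⟨x, hx⟩ := hAe
          have hx' : A = 2 * x := by omega
          rcases Nat.eq_zero_or_pos j with hj | hj
          · subst hj
            -- `4 ∣ A`
            have h12 : (4 : ℤ) ∣ v' * B * A := by
              have h7 : (2 : ℤ) * 4 ∣ 2 * v' * A * B := by
                rw [zero_add, pow_one] at d2
                exact d2
              have e : 2 * v' * A * B = 2 * (v' * B * A) := by ring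
              rw [e] at h7
              exact Int.dvd_of_mul_dvd_mul_left (by norm_num) h7
            have hxe : Even x := by
              rw [hx'] at h12
              have h13 : Even (v' * B * x) := by
                obtain ⟨t, ht⟩ := h12
                refine ⟨t, ?_⟩
                linarith
              rw [Int.even_mul, Int.even_mul] at h13
              have : ¬ Even B := by rw [Int.even_iff]; omega
              tauto
            obtain ⟨y, hy⟩ := hxe
            have hA4 : A = 4 * y := by omega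
            rw [pow_zero, mul_one, hA4] at h9
            obtain ⟨zB, hzB⟩ : ∃ z, B ^ 2 = 8 * z + 1 := ⟨B ^ 2 / 8, by omega⟩
            obtain ⟨zC, hzC⟩ : ∃ z, C ^ 2 = 8 * z + 1 := ⟨C ^ 2 / 8, by omega⟩
            rw [hzB, hzC] at h9
            have h14 : (4 : ℤ) ∣ v' * m' - 1 := by
              obtain ⟨t, ht⟩ := h9
              refine ⟨t - 2 * v' * y ^ 2 - 2 * v' * m' * zB + 2 * zC, ?_⟩
              linarith
            have hv4c : v' % 4 = 1 ∨ v' % 4 = 3 := by omega
            have hm4c : m' % 4 = 1 ∨ m' % 4 = 3 := by omega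
            have h15 : (v' * m') % 4 = 1 := by omega
            rw [Int.mul_emod] at h15
            rcases hv4c with h | h <;> rcases hm4c with h' | h' <;> rw [h, h'] at h15 <;>
              simp at h15 <;> omega
          · exfalso
            have h16 : (8 : ℤ) ∣ v' * (A ^ 2 + 2 * m' * B ^ 2) := by
              have h17 : (8 : ℤ) ∣ 2 * 4 ^ j * C ^ 2 := by
                have : (2 : ℤ) * 4 ∣ 2 * 4 ^ j := mul_dvd_mul_left 2 (h4k j hj)
                exact (show (8 : ℤ) ∣ 2 * 4 ^ j by simpa using this).mul_right _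
              exact (dvd_sub_left h17).1 h9
            rw [hx'] at h16
            have h18 : Even (v' * (2 * x ^ 2 + m' * B ^ 2)) := by
              obtain ⟨t, ht⟩ := h16
              refine ⟨2 * t, ?_⟩
              linarith
            rw [Int.even_mul, Int.even_add, Int.even_mul, Int.even_mul,
              Int.even_pow' two_ne_zero, Int.even_pow' two_ne_zero] at h18
            have : ¬ Even B := by rw [Int.even_iff]; omega
            have h2e : Even (2 : ℤ) := even_two
            tauto
      have hup : up 2 (2 * v') = v' := by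
        unfold up
        rw [if_pos (by simp)]
        simp
      have hupm : up 2 (2 * m') = m' := by
        unfold up
        rw [if_pos (by simp)]
        simp
      have hind : ind 2 (2 * v') = 1 := if_pos (Dvd.intro v' (by push_cast; ring))
      have he : e4 (2 * v') = e4 (2 * m') := by
        unfold e4
        rw [hup, hupm, key]
      rw [hind, he, one_mul]
    · have hvne : ¬ Even v := fun h => hv2 h.two_dvd
      have key : v % 4 = 1 := by
        rcases Nat.eq_zero_or_pos k with hk | hk
        · subst hk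
          rw [pow_zero, mul_one, one_mul] at d1
          rw [pow_zero, mul_one] at d2
          have hA : ¬ Even A := by
            intro hA
            have h10 : Even (v * (A ^ 2 + 2 * m' * B ^ 2)) := by
              rw [Int.even_mul, Int.even_add, Int.even_pow' two_ne_zero]
              have h11 : Even (2 * m' * B ^ 2) := ⟨m' * B ^ 2, by ring⟩
              tauto
            rw [Int.even_iff] at h10
            omega
          have hB : Even B := by
            have h13 : Even (v * A * B) := even_iff_two_dvd.2 d2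
            rw [Int.even_mul, Int.even_mul] at h13
            tauto
          obtain ⟨y, hy⟩ := hB
          have hA8 := sq4 A (by rw [Int.even_iff] at hA; omega)
          obtain ⟨zA, hzA⟩ : ∃ z, A ^ 2 = 8 * z + 1 := ⟨A ^ 2 / 8, by omega⟩
          obtain ⟨zC, hzC⟩ : ∃ z, C ^ 2 = 8 * z + 1 := ⟨C ^ 2 / 8, by omega⟩
          rw [hzA, hzC, hy] at d1
          have h14 : (4 : ℤ) ∣ v - 1 := by
            obtain ⟨t, ht⟩ := d1
            refine ⟨t - 2 * v * zA - 2 * v * m' * y ^ 2 + 2 * zC, ?_⟩
            linarith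
          omega
        · exfalso
          have h3 := d3 hk
          have hA : Even A := by
            have h10 : Even (v * (A ^ 2 + 2 * m' * B ^ 2)) := by
              obtain ⟨t, ht⟩ := h3
              exact ⟨2 * t, by linarith⟩
            rw [Int.even_mul, Int.even_add, Int.even_pow' two_ne_zero] at h10
            have h11 : Even (2 * m' * B ^ 2) := ⟨m' * B ^ 2, by ring⟩
            tauto
          obtain ⟨x, hx⟩ := hA
          have hB : Even B := by
            have h12 : Even (v * (m' * B ^ 2)) := by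
              rw [hx] at h3
              obtain ⟨t, ht⟩ := h3
              refine ⟨t - v * x ^ 2, ?_⟩
              linarith
            rw [Int.even_mul, Int.even_mul, Int.even_pow' two_ne_zero] at h12
            tauto
          rw [Int.even_iff] at hB
          rcases hred with h | h | h <;> omega
      have hup : up 2 v = v := by
        unfold up
        rw [if_neg (by exact_mod_cast hv2)]
      have hind : ind 2 v = 0 := if_neg (by exact_mod_cast hv2)
      have he : e4 v = 0 := by
        unfold e4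
        rw [hup, if_neg (by omega)]
      rw [hind, he, zero_mul]

end Pool.Agent.H348.QF
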