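import Pool.Agent.H525.QF.Stm

/-!
# DC: divisor counts, from coprime pairs to all pairs (helper348 for helper525)
-/

set_option autoImplicit false

namespace Pool.Agent.H348.QF

open Polynomial
open Pool.Agent.H525.QF
open scoped Classical

section dc

variable {K : Type} [Field K] [Fintype K]

omit [Fintype K] in
theorem F_ne {v : K[X] × K[X]} (hv : v ≠ 0) : F v ≠ 0 := by
  intro h
  unfold F at h
  by_cases hy : v.2 = 0
  · rw [hy] at h
    have hx : v.1 = 0 := by
      have : v.1 ^ 4 = 0 := by simpa using h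
      exact pow_eq_zero_iff (by norm_num) |>.1 this
    exact hv (Prod.ext hx hy)
  · have h1 : v.1 ^ 4 = -(X * v.2 ^ 4) := eq_neg_of_add_eq_zero_left h
    have h2 := congrArg natDegree h1
    rw [natDegree_neg, natDegree_pow, natDegree_X_mul (pow_ne_zero 4 hy), natDegree_pow] at h2
    omega

omit [Fintype K] in
/-- the monic gcd -/
theorem mgcd (a b : K[X]) (hab : a ≠ 0 ∨ b ≠ 0) :
    ∃ g s t : K[X], g.Monic ∧ g ∣ a ∧ g ∣ b ∧ s * a + t * b = g := by
  set g0 := EuclideanDomain.gcd a b with hg0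
  have hne : g0 ≠ 0 := by
    intro h
    rw [hg0, EuclideanDomain.gcd_eq_zero_iff] at h
    rcases hab with h' | h'
    · exact h' h.1
    · exact h' h.2
  have hl : g0.leadingCoeff ≠ 0 := leadingCoeff_ne_zero.2 hne
  have hu : IsUnit (C (g0.leadingCoeff)⁻¹ : K[X]) := isUnit_C.2 (isUnit_iff_ne_zero.2 (inv_ne_zero hl))
  refine ⟨g0 * C (g0.leadingCoeff)⁻¹, EuclideanDomain.gcdA a b * C (g0.leadingCoeff)⁻¹,
    EuclideanDomain.gcdB a b * C (g0.leadingCoeff)⁻¹, monic_mul_leadingCoeff_inv hne, ?_, ?_, ?_⟩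
  · exact (hu.mul_right_dvd).2 (EuclideanDomain.gcd_dvd_left a b)
  · exact (hu.mul_right_dvd).2 (EuclideanDomain.gcd_dvd_right a b)
  · have := EuclideanDomain.gcd_eq_gcd_ab a b
    rw [← hg0] at this
    nth_rewrite 3 [this]
    ring

/-- the weights -/
theorem wsum (x : ℝ) (hx0 : 0 ≤ x) (hx1 : x < 1) (n : ℕ) :
    ∑ j ∈ Finset.range n, ((j : ℝ) + 1) * x ^ j ≤ 1 / (1 - x) ^ 2 := by
  have key : (1 - x) ^ 2 * ∑ j ∈ Finset.range n, ((j : ℝ) + 1) * x ^ j =
      1 - ((n : ℝ) + 1) * x ^ n + n * x ^ (n + 1) := by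
    induction n with
    | zero => simp
    | succ n ih =>
      rw [Finset.sum_range_succ, mul_add, ih]
      push_cast
      ring
  have h1 : 0 < (1 - x) ^ 2 := by
    have : 0 < 1 - x := by linarith
    positivity
  rw [le_div_iff₀ h1, mul_comm, key]
  have h2 : (n : ℝ) * x ^ (n + 1) ≤ ((n : ℝ) + 1) * x ^ n := by
    have h3 : x ^ (n + 1) ≤ x ^ n := pow_le_pow_of_le_one hx0 hx1.le (Nat.le_succ n)
    have h4 : 0 ≤ x ^ n := pow_nonneg hx0 n
    have h5 : (0 : ℝ) ≤ n := Nat.cast_nonneg n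
    nlinarith
  linarith

/-- the pairs `(v', d)` -/
noncomputable def RR (S : ℕ → Finset (K[X] × K[X])) (i l : ℕ) :
    Finset ((_ : K[X] × K[X]) × K[X]) :=
  ((S i).filter (fun v => IsCoprime v.1 v.2)).sigma
    (fun v => (mdiv (F v)).filter (fun d => d.natDegree = l))

theorem general (S : ℕ → Finset (K[X] × K[X])) (e m k : ℕ) (D : ℝ) (hD : 0 ≤ D)
    (hS : ∀ m, ∀ v ∈ S m, v ≠ 0 ∧ ∀ h : K[X], h.Monic → h ∣ v.1 → h ∣ v.2 →
      h.natDegree ≤ m ∧ ∃ v' ∈ S (m - h.natDegree), v.1 = h * v'.1 ∧ v.2 = h * v'.2)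
    (hb : ∀ i ≤ m, ∀ l : ℕ, ((∑ v ∈ (S i).filter (fun v => IsCoprime v.1 v.2),
      ((mdiv (F v)).filter (fun d => d.natDegree = l)).card : ℕ) : ℝ) ≤
        D * (Fintype.card K : ℝ) ^ (2 * i + e)) :
    ((∑ b ∈ (mon K k).filter (fun b => Squarefree b),
      ((S m).filter (fun v => b ∣ F v)).card : ℕ) : ℝ) ≤
        D * ((Fintype.card K : ℝ) / ((Fintype.card K : ℝ) - 1)) ^ 2 *
          (Fintype.card K : ℝ) ^ (2 * m + e) := by
  set q : ℝ := (Fintype.card K : ℝ) with hq
  have hq1 : 1 < q := by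
    rw [hq]
    exact_mod_cast Fintype.one_lt_card (α := K)
  have hq0 : 0 < q := by linarith
  have hRR : ∀ i l, (RR S i l).card = ∑ v ∈ (S i).filter (fun v => IsCoprime v.1 v.2),
      ((mdiv (F v)).filter (fun d => d.natDegree = l)).card := fun i l => Finset.card_sigma _ _
  -- the two sets
  set P : Finset ((_ : K[X]) × (K[X] × K[X])) :=
    ((mon K k).filter (fun b => Squarefree b)).sigma (fun b => (S m).filter (fun v => b ∣ F v))
    with hP
  have hPc : P.card = ∑ b ∈ (mon K k).filter (fun b => Squarefree b),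
      ((S m).filter (fun v => b ∣ F v)).card := Finset.card_sigma _ _
  let Q : Finset (K[X] × (K[X] × ((_ : K[X] × K[X]) × K[X]))) :=
    (Finset.range (m + 1)).biUnion fun j => (Finset.range (j + 1)).biUnion fun i =>
      (mon K i) ×ˢ ((mon K (j - i)) ×ˢ (RR S (m - j) (k - i)))
  let ψ : K[X] × (K[X] × ((_ : K[X] × K[X]) × K[X])) → (_ : K[X]) × (K[X] × K[X]) := fun x =>
    ⟨x.1 * x.2.2.2, (x.1 * x.2.1 * x.2.2.1.1, x.1 * x.2.1 * x.2.2.1.2)⟩
  have hsurj : Set.SurjOn ψ Q P := by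
    rintro ⟨b, v⟩ hbv
    rw [Finset.mem_coe, hP, Finset.mem_sigma, Finset.mem_filter, Finset.mem_filter, mem_mon] at hbv
    obtain ⟨⟨⟨hbm, hbd⟩, hbs⟩, hv, hbF⟩ := hbv
    simp only at hbm hbd hbs hv hbF
    obtain ⟨hv0, hvS⟩ := hS m v hv
    have hv0' : v.1 ≠ 0 ∨ v.2 ≠ 0 := by
      by_contra hc
      push Not at hc
      exact hv0 (Prod.ext hc.1 hc.2)
    obtain ⟨h, s, t, hm, h1, h2, hst⟩ := mgcd v.1 v.2 hv0'
    obtain ⟨hjm, v', hv', e1, e2⟩ := hvS h hm h1 h2
    have hcop : IsCoprime v'.1 v'.2 := by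
      refine ⟨s, t, ?_⟩
      have h3 : h * (s * v'.1 + t * v'.2) = h * 1 := by
        calc h * (s * v'.1 + t * v'.2) = s * (h * v'.1) + t * (h * v'.2) := by ring
          _ = s * v.1 + t * v.2 := by rw [e1, e2]
          _ = h * 1 := by rw [hst, mul_one]
      exact mul_left_cancel₀ hm.ne_zero h3
    have hFv : F v = h ^ 4 * F v' := by
      unfold F
      rw [e1, e2]
      ring
    obtain ⟨b₁, s', t', hm₁, hb1, hb2, hst'⟩ := mgcd b h (Or.inr hm.ne_zero)
    obtain ⟨b₂, rfl⟩ := hb1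
    obtain ⟨c, hc⟩ := hb2
    have hm₂ : b₂.Monic := hm₁.of_mul_monic_left hbm
    have hmc : c.Monic := hm₁.of_mul_monic_left (hc ▸ hm)
    have hcc : IsCoprime b₂ c := by
      refine ⟨s', t', ?_⟩
      have h3 : b₁ * (s' * b₂ + t' * c) = b₁ * 1 := by
        calc b₁ * (s' * b₂ + t' * c) = s' * (b₁ * b₂) + t' * (b₁ * c) := by ring
          _ = s' * (b₁ * b₂) + t' * h := by rw [hc]
          _ = b₁ * 1 := by rw [hst', mul_one]
      exact mul_left_cancel₀ hm₁.ne_zero h3
    have hc12 : IsCoprime b₂ b₁ := ((squarefree_mul_iff.1 hbs).1.isCoprime).symm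
    have hc2h : IsCoprime b₂ h := by
      rw [hc]
      exact hc12.mul_right hcc
    have hb2F : b₂ ∣ F v' := by
      have h3 : b₂ ∣ h ^ 4 * F v' := by
        rw [← hFv]
        exact (dvd_mul_left _ _).trans hbF
      exact (hc2h.pow_right).dvd_of_dvd_mul_left h3
    have hdeg : h.natDegree = b₁.natDegree + c.natDegree := by
      rw [hc, hm₁.natDegree_mul hmc]
    have hdegb : k = b₁.natDegree + b₂.natDegree := by
      rw [← hbd, hm₁.natDegree_mul hm₂]
    have hv'0 : v' ≠ 0 := (hS _ v' hv').1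
    refine ⟨(b₁, (c, ⟨v', b₂⟩)), ?_, ?_⟩
    · rw [Finset.mem_coe, Finset.mem_biUnion]
      refine ⟨h.natDegree, Finset.mem_range.2 (by omega), ?_⟩
      rw [Finset.mem_biUnion]
      refine ⟨b₁.natDegree, Finset.mem_range.2 (by omega), ?_⟩
      rw [Finset.mem_product, Finset.mem_product, mem_mon, mem_mon]
      refine ⟨⟨hm₁, rfl⟩, ⟨hmc, by change c.natDegree = h.natDegree - b₁.natDegree; omega⟩, ?_⟩
      rw [RR, Finset.mem_sigma, Finset.mem_filter, Finset.mem_filter, mem_mdiv (F_ne hv'0)]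
      exact ⟨⟨hv', hcop⟩, ⟨hm₂, hb2F⟩, by simp only; omega⟩
    · simp only [ψ]
      rw [← hc, ← e1, ← e2]
  have hcard : P.card ≤ Q.card := Finset.card_le_card_of_surjOn ψ hsurj
  have hQ : Q.card ≤ ∑ j ∈ Finset.range (m + 1), ∑ i ∈ Finset.range (j + 1),
      Fintype.card K ^ i * (Fintype.card K ^ (j - i) * (RR S (m - j) (k - i)).card) := by
    refine Finset.card_biUnion_le.trans (Finset.sum_le_sum fun j _ => ?_)
    refine Finset.card_biUnion_le.trans (Finset.sum_le_sum fun i _ => ?_)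
    rw [Finset.card_product, Finset.card_product, card_mon, card_mon]
  rw [← hPc]
  have hx : q⁻¹ < 1 := inv_lt_one_of_one_lt₀ hq1
  calc (P.card : ℝ) ≤ (Q.card : ℝ) := by exact_mod_cast hcard
    _ ≤ ∑ j ∈ Finset.range (m + 1), ∑ i ∈ Finset.range (j + 1),
        q ^ i * (q ^ (j - i) * ((RR S (m - j) (k - i)).card : ℝ)) := by
        rw [hq]
        exact_mod_cast hQ
    _ ≤ ∑ j ∈ Finset.range (m + 1), ∑ i ∈ Finset.range (j + 1),
        D * q ^ (2 * m + e) * (q⁻¹) ^ j := by
        refine Finset.sum_le_sum fun j hj => Finset.sum_le_sum fun i hi => ?_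
        have hj' := Finset.mem_range.1 hj
        have hi' := Finset.mem_range.1 hi
        have h1 : ((RR S (m - j) (k - i)).card : ℝ) ≤ D * q ^ (2 * (m - j) + e) := by
          rw [hRR]
          exact hb (m - j) (by omega) (k - i)
        calc q ^ i * (q ^ (j - i) * ((RR S (m - j) (k - i)).card : ℝ))
            ≤ q ^ i * (q ^ (j - i) * (D * q ^ (2 * (m - j) + e))) := by gcongr
          _ = D * (q ^ (i + (j - i) + (2 * (m - j) + e))) := by rw [pow_add, pow_add]; ring
          _ = D * q ^ (2 * m + e) * (q⁻¹) ^ j := by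
              have h2 : 2 * m + e = (i + (j - i) + (2 * (m - j) + e)) + j := by omega
              rw [h2, pow_add q _ j, inv_pow]
              field_simp
    _ = D * q ^ (2 * m + e) * ∑ j ∈ Finset.range (m + 1), ((j : ℝ) + 1) * (q⁻¹) ^ j := by
        rw [Finset.mul_sum]
        refine Finset.sum_congr rfl fun j _ => ?_
        rw [Finset.sum_const, Finset.card_range, nsmul_eq_mul]
        push_cast
        ring
    _ ≤ D * q ^ (2 * m + e) * (1 / (1 - q⁻¹) ^ 2) := by
        have := wsum q⁻¹ (inv_nonneg.2 hq0.le) hx (m + 1)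
        gcongr
    _ = D * (q / (q - 1)) ^ 2 * q ^ (2 * m + e) := by
        have h3 : q - 1 ≠ 0 := by linarith
        have h4 : 1 - q⁻¹ = (q - 1) / q := by field_simp
        rw [h4]
        field_simp

omit [Fintype K] in
theorem div_lt {h x : K[X]} {m : ℕ} (hm : h.Monic) (hd : h.natDegree ≤ m)
    (hx : (h * x).degree < (m : ℕ)) : x.degree < ((m - h.natDegree : ℕ) : WithBot ℕ) := by
  by_cases h0 : x = 0
  · rw [h0, degree_zero]
    exact WithBot.bot_lt_coe _
  · rw [degree_eq_natDegree (mul_ne_zero hm.ne_zero h0), hm.natDegree_mul' h0] at hx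
    rw [degree_eq_natDegree h0]
    have h1 : h.natDegree + x.natDegree < m := by exact_mod_cast hx
    have h2 : x.natDegree < m - h.natDegree := by omega
    exact_mod_cast h2

theorem t_dc : S_dc := by
  intro K _ _ D m k hD
  refine ⟨fun hb => ?_, fun hb => ?_⟩
  · have := general (fun i => (lt K (i + 1)) ×ˢ (mon K i)) 1 m k D hD ?_ hb
    · exact this
    · intro m v hv
      rw [Finset.mem_product, mem_lt, mem_mon] at hv
      obtain ⟨h1, h2, h3⟩ := hv
      refine ⟨?_, ?_⟩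
      · intro h
        rw [h] at h2
        exact h2.ne_zero rfl
      · intro h hm hd1 hd2
        obtain ⟨x', hx'⟩ := hd1
        obtain ⟨y', hy'⟩ := hd2
        have hmy : y'.Monic := hm.of_mul_monic_left (hy' ▸ h2)
        have hdeg : h.natDegree + y'.natDegree = m := by
          rw [← hm.natDegree_mul hmy, ← hy', h3]
        refine ⟨by omega, (x', y'), ?_, hx', hy'⟩
        rw [Finset.mem_product, mem_lt, mem_mon]
        refine ⟨?_, hmy, by simp only; omega⟩
        have h5 := div_lt (m := m + 1) hm (by omega) (by rw [← hx']; exact h1)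
        have h6 : m + 1 - h.natDegree = m - h.natDegree + 1 := by omega
        rw [h6] at h5
        exact h5
  · have := general (fun i => (mon K i) ×ˢ (lt K i)) 0 m k D hD ?_ hb
    · exact this
    · intro m v hv
      rw [Finset.mem_product, mem_lt, mem_mon] at hv
      obtain ⟨⟨h2, h3⟩, h1⟩ := hv
      refine ⟨?_, ?_⟩
      · intro h
        rw [h] at h2
        exact h2.ne_zero rfl
      · intro h hm hd1 hd2
        obtain ⟨x', hx'⟩ := hd1
        obtain ⟨y', hy'⟩ := hd2
        have hmy : x'.Monic := hm.of_mul_monic_left (hx' ▸ h2)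
        have hdeg : h.natDegree + x'.natDegree = m := by
          rw [← hm.natDegree_mul hmy, ← hx', h3]
        refine ⟨by omega, (x', y'), ?_, hx', hy'⟩
        rw [Finset.mem_product, mem_lt, mem_mon]
        refine ⟨⟨hmy, by simp only; omega⟩, ?_⟩
        exact div_lt (m := m) hm (by omega) (by rw [← hy']; exact h1)

end dc

end Pool.Agent.H348.QF
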